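import Pool.Agent.H32.Dense.Conf

/-!
# Sticky families of lines: definitions

A random line is a pair of random vectors `u, d` on a finite probability space `(Ω, p)`; its
position at time `t` is `u + t d`. `Z` is side information.
-/

set_option autoImplicit false

namespace Pool.STK

open Finset Real MeasureTheory
open Pool.Agent.H49.Ent Pool.Agent.H32.Dense

/-- A probability law on a finite type. -/
structure IsLaw {Ω : Type} [Fintype Ω] (p : Ω → ℝ) : Prop where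
  nonneg : ∀ ω, 0 ≤ p ω
  sum_one : ∑ ω, p ω = 1

/-- Coordinatewise floor at scale `2 ^ (-j)`. -/
noncomputable def fl {m : ℕ} (j : ℕ) (x : Fin m → ℝ) : Fin m → ℤ := rd fun i => 2 ^ j * x i

/-- The rounded random vector. -/
noncomputable def Fl {Ω : Type} {m : ℕ} (x : Ω → Fin m → ℝ) (j : ℕ) (ω : Ω) : Fin m → ℤ :=
  fl j (x ω)

/-- Position at time `t`. -/
noncomputable def pt {Ω : Type} {m : ℕ} (u d : Ω → Fin m → ℝ) (t : ℝ) (ω : Ω) : Fin m → ℝ :=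
  fun i => u ω i + t * d ω i

/-- Rounded position at time `t`. -/
noncomputable def Xp {Ω : Type} {m : ℕ} (u d : Ω → Fin m → ℝ) (t : ℝ) (j : ℕ) (ω : Ω) :
    Fin m → ℤ := fl j (pt u d t ω)

/-- Rounded line. -/
noncomputable def Ln {Ω : Type} {m : ℕ} (u d : Ω → Fin m → ℝ) (j : ℕ) (ω : Ω) :
    (Fin m → ℤ) × (Fin m → ℤ) := (Fl u j ω, Fl d j ω)

/-- Stickiness with resolution `J`. -/
def Sticky {Ω ζ : Type} [Fintype Ω] {m : ℕ} (p : Ω → ℝ) (u d : Ω → Fin m → ℝ) (Z : Ω → ζ)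
    (ε : ℝ) (J : ℕ) : Prop :=
  ∀ j ≤ J, CH p (Fl u j) (fun ω => (Fl d j ω, Z ω)) ≤ ε * J

/-- Mean entropy of the positions. -/
noncomputable def Xav {Ω ζ : Type} [Fintype Ω] {m : ℕ} (p : Ω → ℝ) (u d : Ω → Fin m → ℝ)
    (Z : Ω → ζ) (J : ℕ) : ℝ := ∫ t in (0 : ℝ)..1, CH p (Xp u d t J) Z

/-- The inequality with defect `R` for all `ε`-sticky families of resolution `J`. -/
def Good (m : ℕ) (a R ε : ℝ) (J : ℕ) : Prop :=
  ∀ (Ω ζ : Type) [Fintype Ω] (p : Ω → ℝ) (u d : Ω → Fin m → ℝ) (Z : Ω → ζ), IsLaw p →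
    (∀ ω i, |d ω i| ≤ 1) → Sticky p u d Z ε J →
    CH p (Fl d J) Z ≤ a * Xav p u d Z J + R * J

/-- The inequality with defect `R` holds for small `ε` and large `J`. -/
def GoodEv (m : ℕ) (a R : ℝ) : Prop := ∃ ε > 0, ∃ J₀ : ℕ, ∀ J ≥ J₀, Good m a R ε J

/-- The rounding constant. -/
noncomputable def cc (m : ℕ) : ℝ := m * Real.log 100

/-- Zooming in at scale `2 ^ (-i)`. -/
noncomputable def zo {Ω : Type} {m : ℕ} (i : ℕ) (x : Ω → Fin m → ℝ) (ω : Ω) : Fin m → ℝ :=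
  fun l => Int.fract (2 ^ i * x ω l)

/-- The coarse line at the beginning of window number `r`, with the side information. -/
noncomputable def bb {Ω ζ : Type} {m : ℕ} (u d : Ω → Fin m → ℝ) (Z : Ω → ζ) (k r : ℕ) (ω : Ω) :
    ((Fin m → ℤ) × (Fin m → ℤ)) × ζ := (Ln u d (r * k) ω, Z ω)

/-- Value of the functional in window number `r`. -/
noncomputable def vv {Ω ζ : Type} [Fintype Ω] {m : ℕ} (a : ℝ) (p : Ω → ℝ)
    (u d : Ω → Fin m → ℝ) (Z : Ω → ζ) (k r : ℕ) : ℝ :=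
  CH p (Fl d ((r + 1) * k)) (bb u d Z k r) -
    a * ∫ t in (0 : ℝ)..1, CH p (Xp u d t ((r + 1) * k)) (bb u d Z k r)

/-- Information about the coarse line in the fine position given the coarse position. -/
noncomputable def II {Ω ζ : Type} [Fintype Ω] {m : ℕ} (p : Ω → ℝ)
    (u d : Ω → Fin m → ℝ) (Z : Ω → ζ) (k r : ℕ) (t : ℝ) : ℝ :=
  CH p (Xp u d t ((r + 1) * k)) (fun ω => (Xp u d t (r * k) ω, Z ω)) -
    CH p (Xp u d t ((r + 1) * k)) (bb u d Z k r)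

/-- The difference of the positions of two lines at time `t₀`, rounded at scale `2 ^ (-j)`. -/
noncomputable def zz {Ω : Type} {m : ℕ} (u d : Ω → Fin m → ℝ) (t₀ : ℝ) (j : ℕ) (w : Ω × Ω) :
    Fin m → ℤ := fl j fun i => pt u d t₀ w.2 i - pt u d t₀ w.1 i

/-- Entropy of differences of positions minus entropy of positions in window `r`, at time `t`,
for two copies which are conditionally independent given the coarse line. -/
noncomputable def th {Ω ζ : Type} [Fintype Ω] {m : ℕ} (p : Ω → ℝ)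
    (u d : Ω → Fin m → ℝ) (Z : Ω → ζ) (k r : ℕ) (t : ℝ) : ℝ :=
  CH (dbl p (bb u d Z k r))
      (fun w => Xp u d t ((r + 1) * k) w.2 - Xp u d t ((r + 1) * k) w.1)
      (fun w => bb u d Z k r w.1) -
    CH p (Xp u d t ((r + 1) * k)) (bb u d Z k r)

/-- Information of the difference on the fine position given the coarse position. -/
noncomputable def TT {Ω ζ : Type} [Fintype Ω] {m : ℕ} (p : Ω → ℝ)
    (u d : Ω → Fin m → ℝ) (Z : Ω → ζ) (k r : ℕ) (t₀ t : ℝ) : ℝ :=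
  CH (dbl p (bb u d Z k r)) (zz u d t₀ ((r + 1) * k)) (fun w => (Xp u d t (r * k) w.1, Z w.1)) -
    CH (dbl p (bb u d Z k r)) (zz u d t₀ ((r + 1) * k))
      (fun w => (Xp u d t ((r + 1) * k) w.1, Z w.1))

/-- A sample together with `N` copies, the `r`-th being conditionally independent given `b r`. -/
noncomputable def multi {Ω β : Type} [Fintype Ω] {N : ℕ} (p : Ω → ℝ) (b : Fin N → Ω → β)
    (w : Ω × (Fin N → Ω)) : ℝ := p w.1 * ∏ r, cond p (b r) (b r w.1) (w.2 r)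

/-- The vector of the differences. -/
noncomputable def zv {Ω : Type} {m : ℕ} (u d : Ω → Fin m → ℝ) (t₀ : ℝ) (k N : ℕ)
    (w : Ω × (Fin N → Ω)) (r : Fin N) : Fin m → ℤ :=
  zz u d t₀ (((r : ℕ) + 1) * k) (w.1, w.2 r)

/-- The law of the sample and its copies. -/
noncomputable def PP {Ω ζ : Type} [Fintype Ω] {m : ℕ} (p : Ω → ℝ)
    (u d : Ω → Fin m → ℝ) (Z : Ω → ζ) (k N : ℕ) : Ω × (Fin N → Ω) → ℝ :=
  multi p (fun r : Fin N => bb u d Z k r)

/-- Information about the line in the differences. -/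
noncomputable def Iw {Ω ζ : Type} [Fintype Ω] {m : ℕ} (p : Ω → ℝ)
    (u d : Ω → Fin m → ℝ) (Z : Ω → ζ) (k N : ℕ) (t₀ : ℝ) : ℝ :=
  CH (PP p u d Z k N) (zv u d t₀ k N) (fun w => Z w.1) -
    CH (PP p u d Z k N) (zv u d t₀ k N) (fun w => w.1)

/-- The sum of the informations, with rounding errors. -/
noncomputable def qq {Ω ζ : Type} [Fintype Ω] {m : ℕ} (p : Ω → ℝ)
    (u d : Ω → Fin m → ℝ) (Z : Ω → ζ) (k N : ℕ) (t : ℝ) : ℝ :=
  ∑ r ∈ Finset.range N, (II p u d Z k r t + 3 * cc m)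

/-- The mean doubling, for a family with side information. -/
noncomputable def Dav {Ω ζ : Type} [Fintype Ω] {m : ℕ} (p : Ω → ℝ) (u d : Ω → Fin m → ℝ)
    (Z : Ω → ζ) (J : ℕ) : ℝ :=
  ∫ t in (0 : ℝ)..1, (CH (dbl p Z) (fun w => Xp u d t J w.2 - Xp u d t J w.1) (fun w => Z w.1) -
    CH p (Xp u d t J) Z)

/-! ### Independent copies -/

/-- Product of two laws. -/
def pr2 {Ω Ω' : Type} (p : Ω → ℝ) (q : Ω' → ℝ) (w : Ω × Ω') : ℝ := p w.1 * q w.2

/-- Power of a law. -/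
def prd {Ω ι : Type} [Fintype ι] (p : Ω → ℝ) (w : ι → Ω) : ℝ := ∏ i, p (w i)

/-- `B` is controlled by `x`: adding an independent multiple of `B` to `x` costs little. -/
def Ctl {Ω Ω' G : Type} [Fintype Ω] [Fintype Ω'] [AddCommGroup G] (p : Ω → ℝ) (x : Ω → G)
    (q : Ω' → ℝ) (B : Ω' → G) (C : ℝ) : Prop :=
  ∀ c : ℤ, H (pr2 p q) (fun w => x w.1 + c • B w.2) ≤ H p x + |(c : ℝ)| * C

/-- The slice number `j` of an integer line. -/
def ev {m : ℕ} (j : ℕ) (l : (Fin m → ℤ) × (Fin m → ℤ)) : Fin m → ℤ := l.1 + (j : ℤ) • l.2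

/-- The Vandermonde sum of independent copies. -/
def TA {Ω : Type} {m : ℕ} (k₀ : ℕ) (A : Ω → (Fin m → ℤ) × (Fin m → ℤ))
    (w : Fin (k₀ - 1) × Fin k₀ → Ω) : (Fin m → ℤ) × (Fin m → ℤ) :=
  ∑ x, (((x.2 : ℕ) : ℤ) ^ (x.1 : ℕ)) • A (w x)

/-- The sum of the Vandermonde coefficients. -/
noncomputable def Kc (k₀ : ℕ) : ℝ := ∑ x : Fin (k₀ - 1) × Fin k₀, (((x.2 : ℕ) : ℝ) ^ (x.1 : ℕ))

/-- Coordinates bounded by `M`. -/
def Bdd {Ω : Type} {m : ℕ} (A : Ω → (Fin m → ℤ) × (Fin m → ℤ)) (M : ℝ) : Prop :=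
  ∀ ω i, |((A ω).1 i : ℝ)| ≤ M ∧ |((A ω).2 i : ℝ)| ≤ M

end Pool.STK
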