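import Pool.Agent.H90.STK.All0
import Pool.Agent.H87.STK.INT
import Pool.Agent.H4.STK.PAR
import Pool.Agent.H4.STK.IMP

/-!
# Assembly of the sticky Kakeya project (board stk)
-/

set_option autoImplicit false

namespace Pool.STK

theorem int_all : INTStmt := int_thm mea_thm

theorem in2_all : IN2Stmt := in2_thm mea_thm

theorem imp_all : IMPStmt :=
  imp_thm (cor_of int_all in2_all) (sdc_of int_all in2_all) (red_of int_all) par_thm zd_thm zx_thm
    z2_thm int_all in2_all

/-- The entropy inequality for sticky random lines. -/
theorem e_all : EStmt := e_of imp_all

/-- The union of a sticky family of tubes. -/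
theorem tub_all : TUBStmt := tub_of imp_all

end Pool.STK
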