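import Pool.Agent.H90.STK.Stmts2

/-!
# Families of tubes without stickiness: statements of the modules (board stk2)
-/

set_option autoImplicit false

namespace Pool.STK

open Finset Real MeasureTheory
open scoped RealInnerProductSpace
open Pool.Agent.H49.Ent Pool.Agent.H32.Dense
open Pool.Agent.H53.Kak (E tube)
open Pool.Agent.H53.Dns (Mx psl slp)

/-- The covering condition at the single scale `ρ`: the tubes with direction in a cap of radius `ρ`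
and with centre in a ball of radius `1` are covered by `A` cylinders of radius `L ρ`. -/
def CovAt {d : ℕ} {ι : Type} (L δ ρ : ℝ) (A : ℕ) (c e : ι → E d) : Prop :=
  ∀ x v : E d, ‖v‖ = 1 → ∃ F : Finset (E d × E d), F.card ≤ A ∧
    (∀ f ∈ F, ‖f.2‖ = 1) ∧ ∀ i, ‖c i - x‖ ≤ 1 → ‖e i - v‖ ≤ ρ →
      ∃ f ∈ F, tube δ (c i) (e i) ⊆ cyl (L * ρ) f.1 f.2

/-- The covering condition at the scales `δ ^ (r / M)`, `1 ≤ r < M`, with constants `A r`. -/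
def CovM {d : ℕ} {ι : Type} (L δ : ℝ) (M : ℕ) (A : ℕ → ℕ) (c e : ι → E d) : Prop :=
  ∀ r : ℕ, 1 ≤ r → r < M → 1 ≤ A r ∧ CovAt L δ (δ ^ ((r : ℝ) / M)) (A r) c e

/-- The lines of a family seen in the slab number `g`: the largest coordinate of the direction is
`k`, with a constant sign, the centres are near the slab, and the positions at the beginning of the
slab are in one unit cube. (As `Cell`, but for any slab which the tubes may meet.) -/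
structure Cell2 {d : ℕ} {ι : Type} (k : Fin (d + 1)) (g : ℤ) (q : Fin d → ℤ) (c e : ι → E d) :
    Prop where
  unit : ∀ i, ‖e i‖ = 1
  mx : ∀ i, Mx k (e i)
  sg : (∀ i, 0 < e i k) ∨ (∀ i, e i k < 0)
  ht : ∀ i, |c i k - g * hm d| ≤ 2
  ps : ∀ i, fl 0 (uT k g c e i) = q

/-- The number of the tubes through a point. -/
noncomputable def mlt {d : ℕ} {ι : Type} [Fintype ι] (δ : ℝ) (c e : ι → E d) (x : E d) : ℝ :=
  ∑ i, (tube δ (c i) (e i)).indicator (fun _ => (1 : ℝ)) x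

open Classical in
/-- The number of the lines of the family near the line `i`, in the slab `g` at the time `s`. -/
noncomputable def nr {d : ℕ} {ι : Type} [Fintype ι] (k : Fin (d + 1)) (g : ℤ) (δ : ℝ)
    (c e : ι → E d) (s : ℝ) (i : ι) : ℝ :=
  ((univ.filter fun j => ∀ l, |pt (uT k g c e) (dT k e) s j l - pt (uT k g c e) (dT k e) s i l| ≤
    4 * δ).card : ℝ)

/-- The shift by half a cell of side `2 ^ (-J)` in some coordinates. -/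
noncomputable def sv {m : ℕ} (J : ℕ) (b : Fin m → Bool) (l : Fin m) : ℝ :=
  if b l then ((2 : ℝ) ^ J)⁻¹ / 2 else 0

/-- A shifted random vector. -/
noncomputable def sft {Ω : Type} {m : ℕ} (u : Ω → Fin m → ℝ) (σ : Fin m → ℝ) (ω : Ω)
    (l : Fin m) : ℝ := u ω l + σ l

/-- The uniform law. -/
noncomputable def unif (κ : Type) [Fintype κ] (_ : κ) : ℝ := 1 / (Fintype.card κ : ℝ)

open Classical in
/-- Entropy for the uniform law. -/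
def UNIStmt : Prop :=
  ∀ (κ S : Type) [Fintype κ] [Nonempty κ], IsLaw (unif κ) ∧ ∀ f : κ → S,
    (Fintype.card κ : ℝ) * H (unif κ) f + ∑ i, Real.log ((univ.filter fun j => f j = f i).card) =
      (Fintype.card κ : ℝ) * Real.log (Fintype.card κ)

open Classical in
/-- Near points are in one cell of one of the shifted grids. -/
def SHFStmt : Prop :=
  ∀ (m J : ℕ) (κ : Type) [Fintype κ] (x : κ → Fin m → ℝ) (r : ℝ), 0 ≤ r → 4 * r ≤ ((2 : ℝ) ^ J)⁻¹ →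
    ∑ i, Real.log ((univ.filter fun j => ∀ l, |x j l - x i l| ≤ r).card) ≤
      ∑ b : Fin m → Bool, ∑ i, Real.log ((univ.filter fun j =>
        fl J (sft x (sv J b) j) = fl J (sft x (sv J b) i)).card)

/-- Integrability of the logarithm of the number of near lines. -/
def NRIStmt : Prop :=
  ∀ (d : ℕ) (ι : Type) [Fintype ι] (k : Fin (d + 1)) (g : ℤ) (δ : ℝ) (c e : ι → E d) (a b : ℝ),
    IntervalIntegrable (fun s => ∑ i, Real.log (nr k g δ c e s i)) volume a b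

/-- The rounded slopes of separated directions: large entropy. -/
def TD2Stmt : Prop :=
  ∀ (d : ℕ) (c₇ : ℝ), 0 < c₇ → ∃ C₇ : ℝ, 0 ≤ C₇ ∧ ∀ (δ : ℝ) (J : ℕ), 0 < δ → δ < 1 →
    ((2 : ℝ) ^ J)⁻¹ ≤ c₇ * δ →
    ∀ (ι : Type) [Fintype ι] [Nonempty ι] (c e : ι → E d) (k : Fin (d + 1)) (g : ℤ)
      (q : Fin d → ℤ), Cell2 k g q c e → (∀ i i', i ≠ i' → δ ≤ ‖e i - e i'‖) →
    Real.log (Fintype.card ι) ≤ H (unif ι) (Fl (dT k e) J) + C₇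

/-- A covering at one scale bounds the conditional entropy of the positions at that scale. -/
def TS2Stmt : Prop :=
  ∀ (d : ℕ) (L c₄ : ℝ), 1 ≤ L → 1 ≤ c₄ → ∃ C₅ : ℝ, 1 ≤ C₅ ∧ ∀ (δ ρ : ℝ) (j A : ℕ), 0 < δ →
    δ < 1 → δ ≤ ρ → ρ ≤ 1 → ρ ≤ c₄ * ((2 : ℝ) ^ j)⁻¹ → ((2 : ℝ) ^ j)⁻¹ ≤ c₄ * ρ →
    ∀ (ι : Type) [Fintype ι] (c e : ι → E d) (k : Fin (d + 1)) (g : ℤ) (q : Fin d → ℤ),
    Cell2 k g q c e → 1 ≤ A → CovAt L δ ρ A c e → ∀ (p : ι → ℝ) (σ : Fin d → ℝ), IsLaw p →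
    CH p (Fl (sft (uT k g c e) σ) j) (Fl (dT k e) j) ≤ Real.log (C₅ * A)

/-- The mean logarithm of the number of near lines, in one cell. -/
def TM2Stmt : Prop :=
  ∀ d : ℕ, 1 ≤ d → ∀ ε L : ℝ, 0 < ε → 1 ≤ L → ∃ M : ℕ, 1 ≤ M ∧ ∃ C₈ : ℝ, 0 ≤ C₈ ∧
    ∀ δ : ℝ, 0 < δ → δ < 1 →
    ∀ (ι : Type) [Fintype ι] [Nonempty ι] (c e : ι → E d) (k : Fin (d + 1)) (g : ℤ)
      (q : Fin d → ℤ), Cell2 k g q c e → (∀ i i', i ≠ i' → δ ≤ ‖e i - e i'‖) →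
    ∀ A : ℕ → ℕ, CovM L δ M A c e →
    ∫ s in (0 : ℝ)..1, ∑ i, Real.log (nr k g δ c e s i) ≤
      (Fintype.card ι : ℝ) * (C₈ + ε * Real.log (1 / δ) +
        2 ^ d * ∑ r ∈ Finset.Ico 1 M, Real.log (A r))

/-- From the near lines to the multiplicity, in one slab. -/
def TV2Stmt : Prop :=
  ∀ d : ℕ, ∃ C₉ : ℝ, 0 < C₉ ∧ ∀ δ : ℝ, 0 < δ → δ < 1 →
    ∀ (ι : Type) [Fintype ι] (c e : ι → E d) (k : Fin (d + 1)) (g : ℤ) (q : Fin d → ℤ),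
    Cell2 k g q c e →
    ∫⁻ x in (sl k g : Set (E d)), ENNReal.ofReal (mlt δ c e x * Real.log (mlt δ c e x)) ≤
      ENNReal.ofReal (C₉ * δ ^ d * ∫ s in (0 : ℝ)..1, ∑ i, Real.log (nr k g δ c e s i))

/-- Summation over the cells. -/
def TO2Stmt : Prop :=
  ∀ d : ℕ, ∃ C : ℝ, 1 ≤ C ∧ ∀ δ B : ℝ, 0 < δ → δ < 1 → 0 ≤ B →
    ∀ (ι : Type) [Fintype ι] (c e : ι → E d), (∀ i, ‖e i‖ = 1) →
    (∀ (κ : Type) [Fintype κ] [Nonempty κ] (f : κ → ι) (k : Fin (d + 1)) (g : ℤ) (q : Fin d → ℤ),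
      Function.Injective f → Cell2 k g q (fun i => c (f i)) (fun i => e (f i)) →
      ∫⁻ x in (sl k g : Set (E d)), ENNReal.ofReal
          (mlt δ (fun i => c (f i)) (fun i => e (f i)) x *
            Real.log (mlt δ (fun i => c (f i)) (fun i => e (f i)) x)) ≤
        ENNReal.ofReal (B * Fintype.card κ)) →
    ∫⁻ x : E d, ENNReal.ofReal (mlt δ c e x * Real.log (mlt δ c e x)) ≤
      ENNReal.ofReal (C * (B + δ ^ d) * Fintype.card ι)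

/-- **The mean logarithm of the multiplicity.** -/
def TF2Stmt : Prop :=
  ∀ d : ℕ, 1 ≤ d → ∀ ε L : ℝ, 0 < ε → 1 ≤ L → ∃ M : ℕ, 1 ≤ M ∧ ∃ K C : ℝ, 0 ≤ K ∧ 0 ≤ C ∧
    ∀ δ : ℝ, 0 < δ → δ < 1 → ∀ (N : ℕ) (c e : Fin N → E d), (∀ i, ‖e i‖ = 1) →
    (∀ i i', i ≠ i' → δ ≤ ‖e i - e i'‖) → ∀ A : ℕ → ℕ, CovM L δ M A c e →
    ∫⁻ x : E d, ENNReal.ofReal (mlt δ c e x * Real.log (mlt δ c e x)) ≤
      ENNReal.ofReal ((C + ε * Real.log (1 / δ) + K * ∑ r ∈ Finset.Ico 1 M, Real.log (A r)) *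
        (N * δ ^ d))

/-- **The union of a family of tubes**, with the product of the covering numbers. -/
def TU2Stmt : Prop :=
  ∀ d : ℕ, 1 ≤ d → ∀ ε L : ℝ, 0 < ε → 1 ≤ L → ∃ M : ℕ, 1 ≤ M ∧ ∃ C : ℝ, 0 < C ∧
    ∀ δ : ℝ, 0 < δ → δ < 1 → ∀ (N : ℕ) (c e : Fin N → E d), (∀ i, ‖e i‖ = 1) →
    (∀ i i', i ≠ i' → δ ≤ ‖e i - e i'‖) → ∀ A : ℕ → ℕ, CovM L δ M A c e →
    ENNReal.ofReal (C⁻¹ * δ ^ ε * (∏ r ∈ Finset.Ico 1 M, (A r : ℝ))⁻¹ * (N * δ ^ d)) ≤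
      volume (⋃ i, tube δ (c i) (e i))

/-- **The typical multiplicity of a family of tubes.** -/
def TG2Stmt : Prop :=
  ∀ d : ℕ, 1 ≤ d → ∀ ε η L : ℝ, 0 < ε → 0 < η → 1 ≤ L → ∃ M : ℕ, 1 ≤ M ∧ ∃ K C : ℝ, 0 ≤ K ∧ 0 < C ∧
    ∀ δ : ℝ, 0 < δ → δ < 1 → ∀ (N : ℕ) (c e : Fin N → E d), (∀ i, ‖e i‖ = 1) →
    (∀ i i', i ≠ i' → δ ≤ ‖e i - e i'‖) → ∀ A : ℕ → ℕ, CovM L δ M A c e →
    ∃ G : Set (E d), MeasurableSet G ∧
      ∑ i, volume (tube δ (c i) (e i) \ G) ≤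
        ENNReal.ofReal η * ∑ i, volume (tube δ (c i) (e i)) ∧
      (∀ x ∈ G, mlt δ c e x ≤ C * δ ^ (-ε) * (∏ r ∈ Finset.Ico 1 M, (A r : ℝ)) ^ K) ∧
      (∀ q : ℝ, 1 + 1 / (d : ℝ) ≤ q → eLpNorm (G.indicator (mlt δ c e)) (ENNReal.ofReal q) volume ≤
        ENNReal.ofReal (C * δ ^ (-ε) * (∏ r ∈ Finset.Ico 1 M, (A r : ℝ)) ^ K *
          (δ ^ ((d : ℝ) / q) * (N : ℝ) ^ (1 - 1 / (q * d))))) ∧
      ENNReal.ofReal (C⁻¹ * δ ^ ε * (∏ r ∈ Finset.Ico 1 M, (A r : ℝ))⁻¹ * (N * δ ^ d)) ≤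
        volume (⋃ i, tube δ (c i) (e i))

end Pool.STK
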