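import Pool.Agent.H90.STK.StmtsT

/-!
# Families without stickiness: the entropy statement
-/

set_option autoImplicit false

namespace Pool.STK

open Finset Real MeasureTheory
open Pool.Agent.H49.Ent Pool.Agent.H32.Dense

/-- **The entropy theorem for all families**: `M` local direction entropies. -/
def EPStmt : Prop :=
  ∀ (m : ℕ) (a R : ℝ), 1 < a → 0 < R → ∃ M : ℕ, 1 ≤ M ∧ ∃ K₀ : ℕ, ∀ K ≥ K₀,
    ∀ (Ω ζ : Type) [Fintype Ω] (p : Ω → ℝ) (u d : Ω → Fin m → ℝ) (Z : Ω → ζ), IsLaw p →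
    (∀ ω i, |d ω i| ≤ 1) →
    ∑ r ∈ Finset.range M, CH p (Fl d ((r + 1) * K)) (bb u d Z K r) ≤
      a * Xav p u d Z (M * K) + R * (M * K)

end Pool.STK
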