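import Pool.Agent.H90.STK.All
import Pool.Agent.H80.STK2.EP
import Pool.Agent.H40.STK2.UNI
import Pool.Agent.H98.STK2.SHF
import Pool.Agent.H98.STK2.NRI
import Pool.Agent.H74.STK2.TD2
import Pool.Agent.H43.STK2.TS2
import Pool.Agent.H59.STK2.TM2
import Pool.Agent.H57.STK2.TV2
import Pool.Agent.H40.STK2.TO2
import Pool.Agent.H20.STK2.TF2
import Pool.Agent.H95.STK2.TU2
import Pool.Agent.H1.STK2.TG2

/-!
# Assembly of the project without stickiness (board stk2)
-/

set_option autoImplicit false

namespace Pool.STK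

theorem tm2_all : TM2Stmt :=
  tm2_thm ep_all spa_thm uni_thm shf_thm nri_thm (td2_thm uni_thm) ts2_thm tcd_thm int_all

theorem tf2_all : TF2Stmt := tf2_thm tm2_all tv2_thm to2_thm

theorem tu2_all : TU2Stmt :=
  tu2_thm ep_all spa_thm tvl_thm tds_thm ts2_thm tov_thm tcd_thm

/-- The typical multiplicity of a family of tubes. -/
theorem tg2_all : TG2Stmt := tg2_thm tf2_all tu2_all

end Pool.STK
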