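import Pool.Agent.H90.STK.Defs

/-!
# Sticky families of lines: statements of the modules
-/

set_option autoImplicit false

namespace Pool.STK

open Finset Real MeasureTheory
open Pool.Agent.H49.Ent Pool.Agent.H32.Dense

/-! ### Integrability in the time -/

/-- Entropies are measurable and bounded functions of a parameter. -/
def MEAStmt : Prop :=
  ∀ (Ω S : Type) [Fintype Ω] (p : Ω → ℝ), IsLaw p → ∀ f : ℝ → Ω → S,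
    (∀ ω ω', MeasurableSet {t | f t ω = f t ω'}) →
    Measurable (fun t => H p (f t)) ∧ ∀ a b : ℝ, IntervalIntegrable (fun t => H p (f t)) volume a b

/-- The entropies of rounded positions are interval integrable. -/
def INTStmt : Prop :=
  ∀ (m : ℕ) (Ω ζ : Type) [Fintype Ω] (p : Ω → ℝ) (u d : Ω → Fin m → ℝ), IsLaw p →
    (∀ (Z : Ω → ζ) (j : ℕ) (a b : ℝ),
      IntervalIntegrable (fun t => CH p (Xp u d t j) Z) volume a b) ∧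
    (∀ (Z : Ω → ζ) (j i : ℕ) (a b : ℝ),
      IntervalIntegrable (fun t => CH p (Xp u d t j) (fun ω => (Xp u d t i ω, Z ω))) volume a b)

/-- The same for differences of positions. -/
def IN2Stmt : Prop :=
  ∀ (m : ℕ) (Ω Ω' ζ : Type) [Fintype Ω] [Fintype Ω'] (q : Ω' → ℝ) (f g : Ω' → Ω)
    (u d : Ω → Fin m → ℝ), IsLaw q → ∀ (Z : Ω' → ζ) (j : ℕ) (a b : ℝ),
    IntervalIntegrable (fun t => CH q (fun w => Xp u d t j (f w) - Xp u d t j (g w)) Z) volume a b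

/-! ### Zooming in -/

/-- Zooming: directions. -/
def ZDStmt : Prop :=
  ∀ (m : ℕ) (Ω ζ : Type) [Fintype Ω] (p : Ω → ℝ) (u d : Ω → Fin m → ℝ) (Z : Ω → ζ), IsLaw p →
    ∀ i j : ℕ, CH p (Fl (zo i d) j) (fun ω => (Ln u d i ω, Z ω)) =
      CH p (Fl d (i + j)) (fun ω => (Ln u d i ω, Z ω))

/-- Zooming: stickiness. -/
def ZSStmt : Prop :=
  ∀ (m : ℕ) (Ω ζ : Type) [Fintype Ω] (p : Ω → ℝ) (u d : Ω → Fin m → ℝ) (Z : Ω → ζ), IsLaw p →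
    ∀ i j : ℕ, CH p (Fl (zo i u) j) (fun ω => (Fl (zo i d) j ω, (Ln u d i ω, Z ω))) ≤
      CH p (Fl u (i + j)) (fun ω => (Fl d (i + j) ω, Z ω))

/-- Zooming: positions. -/
def ZXStmt : Prop :=
  ∀ (m : ℕ) (Ω ζ : Type) [Fintype Ω] (p : Ω → ℝ) (u d : Ω → Fin m → ℝ) (Z : Ω → ζ), IsLaw p →
    ∀ (i j : ℕ) (t : ℝ), 0 ≤ t → t ≤ 1 →
      |CH p (Xp (zo i u) (zo i d) t j) (fun ω => (Ln u d i ω, Z ω)) -
        CH p (Xp u d t (i + j)) (fun ω => (Ln u d i ω, Z ω))| ≤ cc m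

/-- Zooming: differences of positions. -/
def Z2Stmt : Prop :=
  ∀ (m : ℕ) (Ω ζ : Type) [Fintype Ω] (p : Ω → ℝ) (u d : Ω → Fin m → ℝ) (Z : Ω → ζ), IsLaw p →
    ∀ (i j : ℕ) (t : ℝ), 0 ≤ t → t ≤ 1 →
      CH (dbl p (fun ω => (Ln u d i ω, Z ω)))
          (fun w => Xp (zo i u) (zo i d) t j w.2 - Xp (zo i u) (zo i d) t j w.1)
          (fun w => (Ln u d i w.1, Z w.1)) ≤
        CH (dbl p (fun ω => (Ln u d i ω, Z ω)))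
          (fun w => Xp u d t (i + j) w.2 - Xp u d t (i + j) w.1)
          (fun w => (Ln u d i w.1, Z w.1)) + cc m

/-! ### Splitting into windows of scales -/

/-- Chain rule for the directions. -/
def SPAStmt : Prop :=
  ∀ (m : ℕ) (Ω ζ : Type) [Fintype Ω] (p : Ω → ℝ) (u d : Ω → Fin m → ℝ) (Z : Ω → ζ), IsLaw p →
    (∀ ω i, |d ω i| ≤ 1) → ∀ N k : ℕ,
      CH p (Fl d (N * k)) Z ≤ cc m + ∑ r ∈ Finset.range N,
        (CH p (Fl u (r * k)) (fun ω => (Fl d (r * k) ω, Z ω)) +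
          CH p (Fl d ((r + 1) * k)) (bb u d Z k r))

/-- Chain rule for the positions. -/
def SPBStmt : Prop :=
  ∀ (m : ℕ) (Ω ζ : Type) [Fintype Ω] (p : Ω → ℝ) (u d : Ω → Fin m → ℝ) (Z : Ω → ζ), IsLaw p →
    ∀ (N k : ℕ) (t : ℝ), ∑ r ∈ Finset.range N,
      CH p (Xp u d t ((r + 1) * k)) (fun ω => (Xp u d t (r * k) ω, Z ω)) ≤
        CH p (Xp u d t (N * k)) Z

/-- The informations `II` are almost nonnegative. -/
def SPCStmt : Prop :=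
  ∀ (m : ℕ) (Ω ζ : Type) [Fintype Ω] (p : Ω → ℝ) (u d : Ω → Fin m → ℝ) (Z : Ω → ζ), IsLaw p →
    ∀ (k r : ℕ) (t : ℝ), 0 ≤ t → t ≤ 1 → -cc m ≤ II p u d Z k r t

/-- The error term of the splitting. -/
noncomputable def BB (m : ℕ) (a η ε : ℝ) (N k : ℕ) : ℝ :=
  2 * η * (N * k) + ε * N * (N * k) + (2 * a * N + 1) * cc m

/-- Self-similarity of near-maximisers. -/
def CR1Stmt : Prop :=
  ∀ (m : ℕ) (a R η ε ε₁ : ℝ) (N k : ℕ) (Ω ζ : Type) [Fintype Ω] (p : Ω → ℝ)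
    (u d : Ω → Fin m → ℝ) (Z : Ω → ζ), IsLaw p → (∀ ω i, |d ω i| ≤ 1) → 1 ≤ a → 1 ≤ N →
    Good m a (R + η) ε₁ k → ε * N ≤ ε₁ → Sticky p u d Z ε (N * k) →
    a * Xav p u d Z (N * k) + (R - η) * (N * k) ≤ CH p (Fl d (N * k)) Z →
    (∀ r < N, vv a p u d Z k r ≤ (R + η) * k + a * cc m) ∧
    ∑ r ∈ Finset.range N, ((R + η) * k + a * cc m - vv a p u d Z k r) +
      a * ∑ r ∈ Finset.range N, ∫ t in (0 : ℝ)..1, (II p u d Z k r t + cc m) ≤ BB m a η ε N k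

/-! ### Conditionally independent copies -/

/-- The law of a sample with its copies. -/
def MULStmt : Prop :=
  ∀ (Ω β : Type) [Fintype Ω] (N : ℕ) (p : Ω → ℝ) (b : Fin N → Ω → β), IsLaw p →
    IsLaw (multi p b) ∧ Marg (multi p b) p (fun w => w.1) ∧
    ∀ r, Marg (multi p b) (dbl p (b r)) (fun w => (w.1, w.2 r))

/-- Conditional independence of the copies. -/
def MUIStmt : Prop :=
  ∀ (Ω β S : Type) [Fintype Ω] (N : ℕ) (p : Ω → ℝ) (b : Fin N → Ω → β), IsLaw p →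
    ∀ Y : Fin N → Ω × Ω → S,
      ∑ r, CH (dbl p (b r)) (Y r) (fun w => w.1) ≤
        CH (multi p b) (fun w r => Y r (w.1, w.2 r)) (fun w => w.1)

/-- Two times in a common window of length `2 ^ (-k)`. -/
def InW (k : ℕ) (t₀ t : ℝ) : Prop := 0 ≤ t₀ ∧ t₀ ≤ t ∧ t ≤ t₀ + (2 ^ k)⁻¹ ∧ t ≤ 1

/-- Conservation of differences, first inequality. -/
def CN1Stmt : Prop :=
  ∀ (m : ℕ) (Ω ζ : Type) [Fintype Ω] (p : Ω → ℝ) (u d : Ω → Fin m → ℝ) (Z : Ω → ζ), IsLaw p →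
    ∀ (k r : ℕ) (t₀ t : ℝ), InW k t₀ t →
      CH (dbl p (bb u d Z k r)) (zz u d t₀ ((r + 1) * k))
          (fun w => (Xp u d t ((r + 1) * k) w.1, Z w.1)) ≤
        CH p (Xp u d t ((r + 1) * k)) (fun ω => (Xp u d t (r * k) ω, Z ω)) + 2 * cc m

/-- Conservation of differences, second inequality. -/
def CN2Stmt : Prop :=
  ∀ (m : ℕ) (Ω ζ : Type) [Fintype Ω] (p : Ω → ℝ) (u d : Ω → Fin m → ℝ) (Z : Ω → ζ), IsLaw p →
    ∀ (k r : ℕ) (t₀ t : ℝ), InW k t₀ t →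
      CH p (Xp u d t ((r + 1) * k)) (bb u d Z k r) ≤
        CH (dbl p (bb u d Z k r)) (zz u d t₀ ((r + 1) * k)) (fun w => w.1) + cc m

/-- Conservation of differences, third inequality. -/
def CN3Stmt : Prop :=
  ∀ (m : ℕ) (Ω ζ : Type) [Fintype Ω] (p : Ω → ℝ) (u d : Ω → Fin m → ℝ) (Z : Ω → ζ), IsLaw p →
    ∀ (k r : ℕ) (t₀ t : ℝ), InW k t₀ t →
      CH (dbl p (bb u d Z k r)) (zz u d t₀ ((r + 1) * k)) (fun w => bb u d Z k r w.1) ≤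
        CH (dbl p (bb u d Z k r)) (zz u d t₀ ((r + 1) * k))
          (fun w => (Xp u d t (r * k) w.1, Z w.1)) + cc m

/-- Conservation of differences, fourth inequality. -/
def CN4Stmt : Prop :=
  ∀ (m : ℕ) (Ω ζ : Type) [Fintype Ω] (p : Ω → ℝ) (u d : Ω → Fin m → ℝ) (Z : Ω → ζ), IsLaw p →
    ∀ (k r : ℕ) (t₀ t : ℝ), InW k t₀ t →
      CH (dbl p (bb u d Z k r))
          (fun w => Xp u d t ((r + 1) * k) w.2 - Xp u d t ((r + 1) * k) w.1)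
          (fun w => bb u d Z k r w.1) ≤
        CH (dbl p (bb u d Z k r)) (zz u d t₀ ((r + 1) * k)) (fun w => bb u d Z k r w.1) + cc m

/-- The differences carry little more information on the line than on the position. -/
def Q22Stmt : Prop :=
  ∀ (m : ℕ) (Ω ζ : Type) [Fintype Ω] (p : Ω → ℝ) (u d : Ω → Fin m → ℝ) (Z : Ω → ζ), IsLaw p →
    ∀ (k N : ℕ) (t₀ t : ℝ), InW k t₀ t →
      CH (PP p u d Z k N) (zv u d t₀ k N) (fun w => (Xp u d t (N * k) w.1, Z w.1)) -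
        CH (PP p u d Z k N) (zv u d t₀ k N) (fun w => w.1) ≤ qq p u d Z k N t

/-- The informations of the differences on the positions add up. -/
def SUTStmt : Prop :=
  ∀ (m : ℕ) (Ω ζ : Type) [Fintype Ω] (p : Ω → ℝ) (u d : Ω → Fin m → ℝ) (Z : Ω → ζ), IsLaw p →
    ∀ (k N : ℕ) (t₀ t : ℝ),
      ∑ r ∈ Finset.range N, TT p u d Z k r t₀ t ≤ Iw p u d Z k N t₀

/-- The doubling of a slice. -/
def D43Stmt : Prop :=
  ∀ (m : ℕ) (Ω ζ : Type) [Fintype Ω] (p : Ω → ℝ) (u d : Ω → Fin m → ℝ) (Z : Ω → ζ), IsLaw p →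
    ∀ (k r : ℕ) (t₀ t : ℝ), InW k t₀ t →
      th p u d Z k r t ≤ TT p u d Z k r t₀ t + II p u d Z k r t + 4 * cc m

/-- The doubling is nonnegative. -/
def TH0Stmt : Prop :=
  ∀ (m : ℕ) (Ω ζ : Type) [Fintype Ω] (p : Ω → ℝ) (u d : Ω → Fin m → ℝ) (Z : Ω → ζ), IsLaw p →
    ∀ (k r : ℕ) (t : ℝ), 0 ≤ th p u d Z k r t

/-! ### Windows of times -/

/-- The lines seen in a window of times. -/
def WINStmt : Prop :=
  ∀ (m : ℕ) (Ω ζ : Type) [Fintype Ω] (p : Ω → ℝ) (u d : Ω → Fin m → ℝ) (Z : Ω → ζ), IsLaw p →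
    ∀ (k : ℕ) (t₀ : ℝ), 0 ≤ t₀ → t₀ ≤ 1 →
    (∀ (s : ℝ) (j : ℕ), Xp (pt u d t₀) (fun ω i => (2 ^ k)⁻¹ * d ω i) s j =
      Xp u d (t₀ + s * (2 ^ k)⁻¹) j) ∧
    (∀ j : ℕ, Fl (fun ω i => (2 ^ k)⁻¹ * d ω i) (k + j) = Fl d j) ∧
    (∀ j : ℕ, CH p (Fl (pt u d t₀) j) (fun ω => (Fl (fun ω i => (2 ^ k)⁻¹ * d ω i) j ω, Z ω)) ≤
      CH p (Fl u j) (fun ω => (Fl d j ω, Z ω)) + m * (k * Real.log 2) + 2 * cc m)

/-- Refining the resolution by `k` costs at most `m k log 2`. -/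
def RFNStmt : Prop :=
  ∀ (m : ℕ) (Ω ζ : Type) [Fintype Ω] (p : Ω → ℝ) (x : Ω → Fin m → ℝ) (Z : Ω → ζ), IsLaw p →
    ∀ k j : ℕ, CH p (Fl x (j + k)) Z ≤ CH p (Fl x j) Z + m * (k * Real.log 2) + cc m

/-- Decomposition of an integral into windows. -/
def W5Stmt : Prop :=
  ∀ (g : ℝ → ℝ) (k : ℕ), IntervalIntegrable g volume 0 1 →
    ∫ t in (0 : ℝ)..1, g t = ∑ w ∈ Finset.range (2 ^ k),
      (2 ^ k)⁻¹ * ∫ s in (0 : ℝ)..1, g ((w : ℝ) / 2 ^ k + s * (2 ^ k)⁻¹)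

/-- Extremality against data processing in one window of times. -/
def SDPStmt : Prop :=
  ∀ (m : ℕ) (a R η₂ ε ε₂ : ℝ) (N k : ℕ) (Ω ζ : Type) [Fintype Ω] (p : Ω → ℝ)
    (u d : Ω → Fin m → ℝ) (Z : Ω → ζ), IsLaw p → (∀ ω i, |d ω i| ≤ 1) → 1 ≤ a → 1 ≤ N →
    Good m a (R + η₂) ε₂ (N * k) → Sticky p u d Z ε (N * k) →
    ε * (N * k) + m * (k * Real.log 2) + 2 * cc m ≤ ε₂ * (N * k) →
    ∀ w : ℕ, w < 2 ^ k →
    (a - 1) * Iw p u d Z k N ((w : ℝ) / 2 ^ k) ≤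
      a * (∫ s in (0 : ℝ)..1, (CH p (Xp u d ((w : ℝ) / 2 ^ k + s * (2 ^ k)⁻¹) (N * k)) Z +
        qq p u d Z k N ((w : ℝ) / 2 ^ k + s * (2 ^ k)⁻¹))) -
      CH p (Fl d (N * k)) Z + (R + η₂) * (N * k) + m * (k * Real.log 2) + cc m

/-- Average over the windows of times. -/
def AVGStmt : Prop :=
  ∀ (m : ℕ) (a R η₂ ε ε₂ : ℝ) (N k : ℕ) (Ω ζ : Type) [Fintype Ω] (p : Ω → ℝ)
    (u d : Ω → Fin m → ℝ) (Z : Ω → ζ), IsLaw p → (∀ ω i, |d ω i| ≤ 1) → 1 ≤ a → 1 ≤ N →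
    Good m a (R + η₂) ε₂ (N * k) → Sticky p u d Z ε (N * k) →
    ε * (N * k) + m * (k * Real.log 2) + 2 * cc m ≤ ε₂ * (N * k) →
    (a - 1) * ((2 ^ k)⁻¹ * ∑ w ∈ Finset.range (2 ^ k), Iw p u d Z k N ((w : ℝ) / 2 ^ k)) ≤
      a * Xav p u d Z (N * k) + a * (∫ t in (0 : ℝ)..1, qq p u d Z k N t) -
      CH p (Fl d (N * k)) Z + (R + η₂) * (N * k) + m * (k * Real.log 2) + cc m

/-- The total doubling. -/
def THSStmt : Prop :=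
  ∀ (m : ℕ) (N k : ℕ) (Ω ζ : Type) [Fintype Ω] (p : Ω → ℝ)
    (u d : Ω → Fin m → ℝ) (Z : Ω → ζ), IsLaw p →
    ∑ r ∈ Finset.range N, ∫ t in (0 : ℝ)..1, th p u d Z k r t ≤
      (2 ^ k)⁻¹ * ∑ w ∈ Finset.range (2 ^ k), Iw p u d Z k N ((w : ℝ) / 2 ^ k) +
      (∫ t in (0 : ℝ)..1, qq p u d Z k N t) + N * cc m

/-- Pigeonhole. -/
def PIGStmt : Prop :=
  ∀ (N : ℕ) (x y : ℕ → ℝ) (X Y : ℝ), 1 ≤ N → (∀ r < N, 0 ≤ x r) → (∀ r < N, 0 ≤ y r) →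
    ∑ r ∈ Finset.range N, x r ≤ X → ∑ r ∈ Finset.range N, y r ≤ Y →
    ∃ r < N, x r ≤ 2 * X / N ∧ y r ≤ 2 * Y / N

/-- The second error term. -/
noncomputable def B2 (m : ℕ) (a η ε : ℝ) (N k : ℕ) : ℝ :=
  2 * η * (N * k) + m * (k * Real.log 2) + BB m a η ε N k + (2 * a * N + 1) * cc m

/-- The third error term. -/
noncomputable def B3 (m : ℕ) (a η ε : ℝ) (N k : ℕ) : ℝ :=
  B2 m a η ε N k / (a - 1) + (BB m a η ε N k + 2 * a * N * cc m) / a + N * cc m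

/-- The core: a window of scales with large value and small doubling. -/
def CORStmt : Prop :=
  ∀ (m : ℕ) (a R η ε ε₁ : ℝ) (N k : ℕ) (Ω ζ : Type) [Fintype Ω] (p : Ω → ℝ)
    (u d : Ω → Fin m → ℝ) (Z : Ω → ζ), IsLaw p → (∀ ω i, |d ω i| ≤ 1) → 1 < a → 1 ≤ N →
    Good m a (R + η) ε₁ k → Good m a (R + η) ε₁ (N * k) → ε * N ≤ ε₁ →
    ε * (N * k) + m * (k * Real.log 2) + 2 * cc m ≤ ε₁ * (N * k) →
    Sticky p u d Z ε (N * k) →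
    a * Xav p u d Z (N * k) + (R - η) * (N * k) ≤ CH p (Fl d (N * k)) Z →
    ∃ r < N, (R + η) * k + a * cc m - 2 * BB m a η ε N k / N ≤ vv a p u d Z k r ∧
      ∫ t in (0 : ℝ)..1, th p u d Z k r t ≤ 2 * B3 m a η ε N k / N

/-! ### Families whose slices have small doubling -/

/-- Facts on products of two laws. -/
def PR2Stmt : Prop :=
  ∀ (Ω Ω' S T : Type) [Fintype Ω] [Fintype Ω'] (p : Ω → ℝ) (q : Ω' → ℝ), IsLaw p → IsLaw q →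
    IsLaw (pr2 p q) ∧ Marg (pr2 p q) p (fun w => w.1) ∧ Marg (pr2 p q) q (fun w => w.2) ∧
    ∀ (X : Ω → S) (Y : Ω' → T), H (pr2 p q) (fun w => (X w.1, Y w.2)) = H p X + H q Y

/-- Facts on powers of a law. -/
def PRDStmt : Prop :=
  ∀ (Ω ι S : Type) [Fintype Ω] [Fintype ι] [DecidableEq ι] (p : Ω → ℝ), IsLaw p →
    IsLaw (prd p : (ι → Ω) → ℝ) ∧ (∀ i : ι, Marg (prd p : (ι → Ω) → ℝ) p (fun w => w i)) ∧
    ∀ f : ι → Ω → S, H (prd p : (ι → Ω) → ℝ) (fun w i => f i (w i)) = ∑ i, H p (f i)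

/-- Marginals of powers of a law. -/
def PRMStmt : Prop :=
  ∀ (Ω ι κ : Type) [Fintype Ω] [Fintype ι] [DecidableEq ι] [Fintype κ] [DecidableEq κ]
    (p : Ω → ℝ), IsLaw p → ∀ σ : κ → ι, Function.Injective σ →
    Marg (prd p : (ι → Ω) → ℝ) (prd p : (κ → Ω) → ℝ) (fun w i => w (σ i))

/-- Submodularity for sums of independent variables. -/
def KVStmt : Prop :=
  ∀ (Ω G : Type) [Fintype Ω] [AddCommGroup G] (p : Ω → ℝ), IsLaw p → ∀ X Y₁ Y₂ : Ω → G,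
    H p X + H p Y₁ + H p Y₂ ≤ H p (fun ω => (X ω, Y₁ ω, Y₂ ω)) →
    H p (fun ω => X ω + Y₁ ω + Y₂ ω) + H p X ≤
      H p (fun ω => X ω + Y₁ ω) + H p (fun ω => X ω + Y₂ ω)

/-- The triangle inequality. -/
def TRIStmt : Prop :=
  ∀ (Ω G : Type) [Fintype Ω] [AddCommGroup G] (p : Ω → ℝ), IsLaw p → ∀ A B C : Ω → G,
    H p (fun ω => (A ω, C ω)) + H p B ≤ H p (fun ω => ((A ω, C ω), B ω)) →
    H p (fun ω => A ω - C ω) + H p B ≤ H p (fun ω => A ω - B ω) + H p (fun ω => B ω - C ω)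

/-- Sums with multiples of independent copies. -/
def DILStmt : Prop :=
  ∀ (Ω G : Type) [Fintype Ω] [AddCommGroup G] (p : Ω → ℝ), IsLaw p → ∀ X : Ω → G,
    Ctl p X p X (2 * (H (pr2 p p) (fun w => X w.2 - X w.1) - H p X))

/-- Control of sums of independent copies. -/
def CTSStmt : Prop :=
  ∀ (Ω Ω' ι G : Type) [Fintype Ω] [Fintype Ω'] [Fintype ι] [DecidableEq ι] [AddCommGroup G]
    (p : Ω → ℝ) (q : Ω' → ℝ) (x : Ω → G) (B : Ω' → G) (C : ℝ) (γ : ι → ℤ), IsLaw p → IsLaw q →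
    Ctl p x q B C → Ctl p x (prd q : (ι → Ω') → ℝ) (fun w => ∑ i, γ i • B (w i))
      ((∑ i, |(γ i : ℝ)|) * C)

/-- Entropy of a controlled variable. -/
def CTHStmt : Prop :=
  ∀ (Ω Ω' G : Type) [Fintype Ω] [Fintype Ω'] [AddCommGroup G]
    (p : Ω → ℝ) (q : Ω' → ℝ) (x : Ω → G) (B : Ω' → G) (C : ℝ), IsLaw p → IsLaw q →
    Ctl p x q B C → H q B ≤ H p x + C

/-- A sum of independent variables has at least the entropy of each summand. -/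
def SUMStmt : Prop :=
  ∀ (Ω ι κ G : Type) [Fintype Ω] [Fintype ι] [DecidableEq ι] [Fintype κ] [DecidableEq κ]
    [AddCommGroup G] (p : Ω → ℝ) (A : Ω → G) (γ : ι → ℤ) (σ : κ → ι), IsLaw p →
    Function.Injective σ →
    H (prd p : (κ → Ω) → ℝ) (fun w => ∑ i, γ (σ i) • A (w i)) ≤
      H (prd p : (ι → Ω) → ℝ) (fun w => ∑ i, γ i • A (w i))

/-- Vandermonde. -/
def VDMStmt : Prop :=
  ∀ (n m : ℕ) (v w : Fin n → Fin m → ℤ),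
    (∀ p < n, ∑ j : Fin n, (((j : ℕ) : ℤ) ^ p) • v j = ∑ j : Fin n, (((j : ℕ) : ℤ) ^ p) • w j) →
    v = w

/-- The Vandermonde step. -/
def KEYStmt : Prop :=
  ∀ (m k₀ : ℕ) (Ω : Type) [Fintype Ω] (p : Ω → ℝ) (A : Ω → (Fin m → ℤ) × (Fin m → ℤ)),
    IsLaw p → 3 ≤ k₀ →
    H p A + ((k₀ : ℝ) - 2) * H p (fun ω => (A ω).2) ≤
      ∑ j ∈ Finset.range k₀, H p (fun ω => ev j (A ω)) +
        ((k₀ : ℝ) - 1) * (H (prd p) (TA k₀ A) - H p A)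

/-- The properties of the Vandermonde sum. -/
def TAPStmt : Prop :=
  ∀ (m k₀ : ℕ) (Ω₀ Ω : Type) [Fintype Ω₀] [Fintype Ω] (p₀ : Ω₀ → ℝ) (p : Ω → ℝ)
    (A : Ω → (Fin m → ℤ) × (Fin m → ℤ)), IsLaw p₀ → IsLaw p → 3 ≤ k₀ →
    IsLaw (prd p : (Fin (k₀ - 1) × Fin k₀ → Ω) → ℝ) ∧
    (∀ (x : Ω₀ → Fin m → ℤ) (C : ℝ) (j : ℕ), Ctl p₀ x p (fun ω => ev j (A ω)) C →
      Ctl p₀ x (prd p) (fun w => ev j (TA k₀ A w)) (Kc k₀ * C)) ∧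
    (H p (fun ω => (A ω).2) ≤ H (prd p) (fun w => (TA k₀ A w).2)) ∧
    (∀ M : ℝ, Bdd A M → Bdd (TA k₀ A) (Kc k₀ * M)) ∧ 1 ≤ Kc k₀

/-- The iteration. -/
def ITRStmt : Prop :=
  ∀ (m k₀ : ℕ), 3 ≤ k₀ → ∀ (Ω₀ : Type) [Fintype Ω₀] (p₀ : Ω₀ → ℝ) (x : ℕ → Ω₀ → Fin m → ℤ)
    (h σ : ℝ), IsLaw p₀ → 0 ≤ σ → ∀ (S : ℕ) (Ω : Type) [Fintype Ω] (p : Ω → ℝ)
    (A : Ω → (Fin m → ℤ) × (Fin m → ℤ)) (M : ℝ) (C : ℕ → ℝ), IsLaw p → 1 ≤ M → Bdd A M →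
    (∀ j, 0 ≤ C j) → (∀ j < k₀, Ctl p₀ (x j) p (fun ω => ev j (A ω)) (C j)) →
    h ≤ H p (fun ω => (A ω).2) →
    2 * m * Real.log (2 * (Kc k₀ ^ S * M) + 1) < H p A + S * σ →
    ((k₀ : ℝ) - 1) * h ≤ ∑ j ∈ Finset.range k₀, (H p₀ (x j) + Kc k₀ ^ S * C j) +
      ((k₀ : ℝ) - 1) * σ

/-- Small doubling at times in arithmetic progression, integer form. -/
def SDIStmt : Prop :=
  ∀ (m k₀ S : ℕ), 3 ≤ k₀ → 1 ≤ S → ∀ (Ω : Type) [Fintype Ω] (p : Ω → ℝ)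
    (l : Ω → (Fin m → ℤ) × (Fin m → ℤ)) (M : ℝ), IsLaw p → 1 ≤ M → Bdd l M →
    ((k₀ : ℝ) - 1) * H p (fun ω => (l ω).2) ≤
      ∑ j ∈ Finset.range k₀, (H p (fun ω => ev j (l ω)) + Kc k₀ ^ S *
        (2 * (H (pr2 p p) (fun w => ev j (l w.2) - ev j (l w.1)) - H p (fun ω => ev j (l ω))))) +
      ((k₀ : ℝ) - 1) * ((2 * m * Real.log (2 * (Kc k₀ ^ S * M) + 1) + 1) / S)

/-- Comparison of the slices of the integer line with the rounded positions. -/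
def CMPStmt : Prop :=
  ∀ (m k₀ : ℕ) (τ₀ : ℝ), 3 ≤ k₀ → 0 < τ₀ → ((k₀ : ℝ) - 1) * τ₀ ≤ 1 / 2 → ∃ C : ℝ, 0 ≤ C ∧
    ∀ (Ω : Type) [Fintype Ω] (p : Ω → ℝ) (u d : Ω → Fin m → ℝ), IsLaw p →
    (∀ ω i, 0 ≤ u ω i ∧ u ω i < 1) → (∀ ω i, 0 ≤ d ω i ∧ d ω i < 1) → ∀ (k : ℕ) (t₀ : ℝ),
    0 ≤ t₀ → t₀ ≤ 1 → ∃ l : Ω → (Fin m → ℤ) × (Fin m → ℤ), Bdd l (2 ^ (k + 1)) ∧
      H p (Fl d k) ≤ H p (fun ω => (l ω).2) + C ∧
      ∀ j < k₀, H p (fun ω => ev j (l ω)) ≤ H p (Xp u d (t₀ + j * τ₀) k) + C ∧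
        H (pr2 p p) (fun w => ev j (l w.2) - ev j (l w.1)) - H p (fun ω => ev j (l ω)) ≤
        H (pr2 p p) (fun w => Xp u d (t₀ + j * τ₀) k w.2 - Xp u d (t₀ + j * τ₀) k w.1) -
          H p (Xp u d (t₀ + j * τ₀) k) + C

/-- Small doubling, without side information. -/
def SDTStmt : Prop :=
  ∀ (m : ℕ) (a ρ : ℝ), 1 < a → 0 < ρ → ∃ C₁ : ℝ, 0 ≤ C₁ ∧ ∃ k₁ : ℕ, ∀ k ≥ k₁,
    ∀ (Ω : Type) [Fintype Ω] (p : Ω → ℝ) (u d : Ω → Fin m → ℝ), IsLaw p →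
    (∀ ω i, 0 ≤ u ω i ∧ u ω i < 1) → (∀ ω i, 0 ≤ d ω i ∧ d ω i < 1) →
    H p (Fl d k) ≤ a * (∫ t in (0 : ℝ)..1, H p (Xp u d t k)) +
      C₁ * (∫ t in (0 : ℝ)..1, (H (pr2 p p) (fun w => Xp u d t k w.2 - Xp u d t k w.1) -
        H p (Xp u d t k))) + ρ * k

/-- Small doubling, with side information. -/
def SDCStmt : Prop :=
  ∀ (m : ℕ) (a ρ : ℝ), 1 < a → 0 < ρ → ∃ C₁ : ℝ, 0 ≤ C₁ ∧ ∃ k₁ : ℕ, ∀ k ≥ k₁,
    ∀ (Ω ζ : Type) [Fintype Ω] (p : Ω → ℝ) (u d : Ω → Fin m → ℝ) (Z : Ω → ζ), IsLaw p →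
    (∀ ω i, 0 ≤ u ω i ∧ u ω i < 1) → (∀ ω i, 0 ≤ d ω i ∧ d ω i < 1) →
    CH p (Fl d k) Z ≤ a * Xav p u d Z k + C₁ * Dav p u d Z k + ρ * k

/-- A sum over the values of the side information. -/
def CDSStmt : Prop :=
  ∀ (Ω ζ S : Type) [Fintype Ω] [DecidableEq ζ] (p : Ω → ℝ) (Z : Ω → ζ), IsLaw p →
    (∀ z, 0 < law p Z z → IsLaw (cond p Z z)) ∧
    (∀ X : Ω → S, CH p X Z = ∑ z ∈ univ.image Z, law p Z z * H (cond p Z z) X) ∧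
    (∀ Y : Ω × Ω → S, CH (dbl p Z) Y (fun w => Z w.1) =
      ∑ z ∈ univ.image Z, law p Z z * H (pr2 (cond p Z z) (cond p Z z)) Y)

/-! ### The theorem for random lines -/

/-- Replacing the resolution by a multiple of `N`. -/
def REDStmt : Prop :=
  ∀ (m : ℕ) (a R η ε : ℝ) (N : ℕ), 1 ≤ a → 0 < η → 0 < ε → 1 ≤ N → ∃ J₀ : ℕ, ∀ J ≥ J₀,
    ∀ (Ω ζ : Type) [Fintype Ω] (p : Ω → ℝ) (u d : Ω → Fin m → ℝ) (Z : Ω → ζ), IsLaw p →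
    Sticky p u d Z ε J → a * Xav p u d Z J + (R - η) * J ≤ CH p (Fl d J) Z →
    Sticky p u d Z (2 * ε) (N * (J / N)) ∧
    a * Xav p u d Z (N * (J / N)) + (R - 2 * η) * (N * (J / N : ℕ)) ≤
      CH p (Fl d (N * (J / N))) Z

/-- The trivial bound. -/
def TRVStmt : Prop := ∀ (m : ℕ) (a : ℝ), 0 ≤ a → GoodEv m a (m * (Real.log 2 + Real.log 5))

/-- Choice of the parameters. -/
def PARStmt : Prop :=
  ∀ (m : ℕ) (a R C₁ : ℝ), 1 < a → 0 < R → 0 ≤ C₁ → ∃ η : ℝ, 0 < η ∧ ∀ ε₁ : ℝ, 0 < ε₁ →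
    ∃ N : ℕ, 1 ≤ N ∧ ∃ ε : ℝ, 0 < ε ∧ ∃ k₂ : ℕ, ∀ k : ℕ, k₂ ≤ k → 2 * ε * N ≤ ε₁ ∧
      2 * ε * (N * k) + m * (k * Real.log 2) + 2 * cc m ≤ ε₁ * (N * k) ∧
      2 * BB m a (2 * η) (2 * ε) N k / N + C₁ * (2 * B3 m a (2 * η) (2 * ε) N k / N + 2 * cc m) <
        R / 2 * k

/-- The improvement step. -/
def IMPStmt : Prop :=
  ∀ (m : ℕ) (a R : ℝ), 1 < a → 0 < R → (∀ R' > R, GoodEv m a R') → ∃ R' < R, GoodEv m a R'

/-- **The entropy theorem for sticky families.** -/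
def EStmt : Prop := ∀ (m : ℕ) (a R : ℝ), 1 < a → 0 < R → GoodEv m a R

end Pool.STK
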