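import Pool.Agent.H90.STK.Stmts
import Pool.Agent.H53.Dense.Line

/-!
# Sticky families of tubes: statements of the modules
-/

set_option autoImplicit false

namespace Pool.STK

open Finset Real MeasureTheory
open scoped RealInnerProductSpace
open Pool.Agent.H49.Ent Pool.Agent.H32.Dense
open Pool.Agent.H53.Kak (E tube)
open Pool.Agent.H53.Dns (Mx psl slp)

/-- The height of a slab. -/
noncomputable def hm (d : ℕ) : ℝ := 1 / (8 * ((d : ℝ) + 1))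

/-- Position of the axis at the height `g * hm d`. -/
noncomputable def uT {d : ℕ} {ι : Type} (k : Fin (d + 1)) (g : ℤ) (c e : ι → E d) (i : ι)
    (l : Fin d) : ℝ := psl k (c i) (e i) (g * hm d) l

/-- Slope, in units of the height of a slab. -/
noncomputable def dT {d : ℕ} {ι : Type} (k : Fin (d + 1)) (e : ι → E d) (i : ι)
    (l : Fin d) : ℝ := hm d * slp k (e i) l

/-- The slab number `g`. -/
def sl {d : ℕ} (k : Fin (d + 1)) (g : ℤ) : Set (E d) :=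
  {x | (g : ℝ) * hm d ≤ x k ∧ x k < ((g : ℝ) + 1) * hm d}

/-- The tubes of a family are in one cell: the largest coordinate of the direction is `k`, with a
constant sign, the tubes cross the slab `g`, and the positions at the beginning of the slab are in
one unit cube. -/
structure Cell {d : ℕ} {ι : Type} (k : Fin (d + 1)) (g : ℤ) (q : Fin d → ℤ) (c e : ι → E d) :
    Prop where
  unit : ∀ i, ‖e i‖ = 1
  mx : ∀ i, Mx k (e i)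
  sg : (∀ i, 0 < e i k) ∨ (∀ i, e i k < 0)
  ht : ∀ i, ⌊c i k / hm d⌋ - 1 = g
  ps : ∀ i, fl 0 (uT k g c e i) = q

/-- The cylinder of radius `r` about the line through `c` with direction `e`. -/
def cyl {d : ℕ} (r : ℝ) (c e : E d) : Set (E d) := {x | ‖(x - c) - ⟪x - c, e⟫ • e‖ ≤ r}

/-- At every scale `ρ`, the tubes with direction in a cap of radius `ρ` and with centre in a ball
of radius `1` are covered by `A` cylinders of radius `L ρ`. -/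
def Cov {d : ℕ} {ι : Type} (L δ : ℝ) (A : ℕ) (c e : ι → E d) : Prop :=
  ∀ ρ : ℝ, δ ≤ ρ → ρ ≤ 1 → ∀ x v : E d, ‖v‖ = 1 → ∃ F : Finset (E d × E d), F.card ≤ A ∧
    (∀ f ∈ F, ‖f.2‖ = 1) ∧ ∀ i, ‖c i - x‖ ≤ 1 → ‖e i - v‖ ≤ ρ →
      ∃ f ∈ F, tube δ (c i) (e i) ⊆ cyl (L * ρ) f.1 f.2

/-- Volume of the union of the tubes of a cell. -/
def TVLStmt : Prop :=
  ∀ d : ℕ, ∃ c₁ > 0, ∃ c₂ > 0, ∀ (δ : ℝ) (J : ℕ), 0 < δ → δ < 1 → ((2 : ℝ) ^ J)⁻¹ ≤ c₂ * δ →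
    ∀ (ι : Type) [Fintype ι] (c e : ι → E d) (k : Fin (d + 1)) (g : ℤ) (q : Fin d → ℤ),
    Cell k g q c e → ∀ p : ι → ℝ, IsLaw p →
    ENNReal.ofReal (c₁ * (((2 : ℝ) ^ J)⁻¹) ^ d *
      Real.exp (∫ s in (0 : ℝ)..1, H p (Xp (uT k g c e) (dT k e) s J))) ≤
      volume ((⋃ i, tube δ (c i) (e i)) ∩ sl k g)

/-- The rounded slopes of separated directions in a cell are distinct. -/
def TDSStmt : Prop :=
  ∀ d : ℕ, ∃ c₃ > 0, ∀ (δ : ℝ) (J : ℕ), 0 < δ → δ < 1 → ((2 : ℝ) ^ J)⁻¹ ≤ c₃ * δ →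
    ∀ (ι : Type) (c e : ι → E d) (k : Fin (d + 1)) (g : ℤ) (q : Fin d → ℤ),
    Cell k g q c e → (∀ i i', i ≠ i' → δ ≤ ‖e i - e i'‖) →
    Function.Injective (Fl (dT k e) J)

/-- Covered families are sticky. -/
def TSTStmt : Prop :=
  ∀ (d : ℕ) (L c₄ : ℝ), 1 ≤ L → 0 < c₄ → ∃ C₅ : ℝ, 1 ≤ C₅ ∧ ∀ (δ : ℝ) (J A : ℕ), 0 < δ → δ < 1 →
    c₄ * δ ≤ ((2 : ℝ) ^ J)⁻¹ →
    ∀ (ι : Type) [Fintype ι] (c e : ι → E d) (k : Fin (d + 1)) (g : ℤ) (q : Fin d → ℤ),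
    Cell k g q c e → 1 ≤ A → Cov L δ A c e → ∀ p : ι → ℝ, IsLaw p → ∀ j ≤ J,
    CH p (Fl (uT k g c e) j) (Fl (dT k e) j) ≤ Real.log (C₅ * A)

/-- Summation over the cells. -/
def TOVStmt : Prop :=
  ∀ d : ℕ, ∃ c₆ > 0, ∀ (δ B : ℝ), 0 < δ → δ < 1 → 0 ≤ B →
    ∀ (ι : Type) [Fintype ι] (c e : ι → E d), (∀ i, ‖e i‖ = 1) →
    (∀ (κ : Type) [Fintype κ] (f : κ → ι) (k : Fin (d + 1)) (g : ℤ) (q : Fin d → ℤ),
      Function.Injective f → Cell k g q (fun i => c (f i)) (fun i => e (f i)) →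
      ENNReal.ofReal (B * Fintype.card κ) ≤
        volume ((⋃ i, tube δ (c (f i)) (e (f i))) ∩ sl k g)) →
    ENNReal.ofReal (c₆ * B * Fintype.card ι) ≤ volume (⋃ i, tube δ (c i) (e i))

/-- The number of separated directions. -/
def TCDStmt : Prop :=
  ∀ d : ℕ, ∃ C₇ > 0, ∀ δ : ℝ, 0 < δ → δ < 1 → ∀ (ι : Type) [Fintype ι] (e : ι → E d),
    (∀ i, ‖e i‖ = 1) → (∀ i i', i ≠ i' → δ ≤ ‖e i - e i'‖) →
    (Fintype.card ι : ℝ) ≤ C₇ * (δ ^ d)⁻¹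

/-- **The union of a sticky family of tubes.** -/
def TUBStmt : Prop :=
  ∀ d : ℕ, 1 ≤ d → ∀ ε L : ℝ, 0 < ε → 1 ≤ L → ∃ K C : ℝ, 0 ≤ K ∧ 0 < C ∧
    ∀ δ : ℝ, 0 < δ → δ < 1 → ∀ (N : ℕ) (c e : Fin N → E d), (∀ i, ‖e i‖ = 1) →
    (∀ i i', i ≠ i' → δ ≤ ‖e i - e i'‖) → ∀ A : ℕ, 1 ≤ A → Cov L δ A c e →
    ENNReal.ofReal (C⁻¹ * δ ^ ε * (A : ℝ) ^ (-K) * (N * δ ^ d)) ≤
      volume (⋃ i, tube δ (c i) (e i))

end Pool.STK
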