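/-
Assembly of the sticky Kakeya project (board stk). Everything but the last modules, which enter as
hypotheses.
-/
import Pool.Agent.H90.STK.StmtsT
import Pool.Agent.H58.STK.MEA
import Pool.Agent.H58.STK.ZD
import Pool.Agent.H58.STK.ZS
import Pool.Agent.H62.STK.ZX
import Pool.Agent.H62.STK.Z2
import Pool.Agent.H58.STK.SPA
import Pool.Agent.H58.STK.SPB
import Pool.Agent.H94.STK.SPC
import Pool.Agent.H34.STK.CR1
import Pool.Agent.H41.STK.MUL
import Pool.Agent.H40.STK.MUI
import Pool.Agent.H68.STK.CN1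
import Pool.Agent.H44.STK.CN2
import Pool.Agent.H72.STK.CN3
import Pool.Agent.H44.STK.CN4
import Pool.Agent.H41.STK.Q22
import Pool.Agent.H68.STK.SUT
import Pool.Agent.H89.STK.D43
import Pool.Agent.H80.STK.TH0
import Pool.Agent.H31.STK.WIN
import Pool.Agent.H80.STK.RFN
import Pool.Agent.H19.STK.W5
import Pool.Agent.H94.STK.SDP
import Pool.Agent.H34.STK.AVG
import Pool.Agent.H94.STK.THS
import Pool.Agent.H34.STK.PIG
import Pool.Agent.H74.STK.COR
import Pool.Agent.H72.STK.PR2
import Pool.Agent.H40.STK.PRD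
import Pool.Agent.H34.STK.PRM
import Pool.Agent.H94.STK.KV
import Pool.Agent.H41.STK.TRI
import Pool.Agent.H89.STK.DIL
import Pool.Agent.H94.STK.CTS
import Pool.Agent.H53.STK.CTH
import Pool.Agent.H57.STK.SUM
import Pool.Agent.H34.STK.VDM
import Pool.Agent.H89.STK.KEY
import Pool.Agent.H19.STK.TAP
import Pool.Agent.H74.STK.ITR
import Pool.Agent.H89.STK.SDI
import Pool.Agent.H33.STK.CMP
import Pool.Agent.H33.STK.SDT
import Pool.Agent.H27.STK.CDS
import Pool.Agent.H27.STK.SDC
import Pool.Agent.H31.STK.RED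
import Pool.Agent.H21.STK.TRV
import Pool.Agent.H64.STK.E
import Pool.Agent.H84.STK.TVL
import Pool.Agent.H84.STK.TDS
import Pool.Agent.H89.STK.TST
import Pool.Agent.H40.STK.TOV
import Pool.Agent.H53.STK.TCD
import Pool.Agent.H89.STK.TUB
set_option autoImplicit false

namespace Pool.STK

theorem cor_of (hINT : INTStmt) (hIN2 : IN2Stmt) : CORStmt := by
  have hCR1 : CR1Stmt := cr1_thm zd_thm zs_thm zx_thm spa_thm spb_thm spc_thm hINT
  have hMUL := mul_thm
  have hMUI := mui_thm hMUL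
  have hQ22 := q22_thm hMUL hMUI cn1_thm cn2_thm
  have hSUT := sut_thm hMUL
  have hD43 := d43_thm cn1_thm cn3_thm cn4_thm
  have hSDP := sdp_thm hQ22 win_thm rfn_thm hMUL hINT
  have hAVG := avg_thm hSDP w5_thm hINT
  have hTHS := ths_thm hD43 hSUT w5_thm hINT hIN2
  exact cor_thm hCR1 hAVG hTHS pig_thm th0_thm spc_thm hINT

theorem sdi_all : SDIStmt := by
  have hPR2 := pr2_thm
  have hPRD := prd_thm
  have hKV := kv_thm
  have hDIL := dil_thm hKV tri_thm hPR2
  have hCTS := cts_thm hKV hPR2 hPRD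
  have hCTH := cth_thm hPR2
  have hSUM := sum_thm hPRD prm_thm
  have hKEY := key_thm hPRD hSUM vdm_thm
  have hTAP := tap_thm hPRD hCTS hSUM
  have hITR := itr_thm hKEY hTAP hCTH
  exact sdi_thm hITR hDIL

theorem sdc_of (hINT : INTStmt) (hIN2 : IN2Stmt) : SDCStmt :=
  sdc_thm (sdt_thm sdi_all cmp_thm hINT) cds_thm hINT hIN2

theorem red_of (hINT : INTStmt) : REDStmt := red_thm rfn_thm hINT

theorem e_of (hIMP : IMPStmt) : EStmt := e_thm hIMP trv_thm

theorem tub_of (hIMP : IMPStmt) : TUBStmt :=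
  tub_thm (e_of hIMP) tvl_thm tds_thm tst_thm tov_thm tcd_thm

end Pool.STK
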